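import Mathlib
import Pool.Agent.H43.G.R_seed8.H307R2.LU
import Pool.Agent.H43.G.R_seed8.H410R2.Iface

/-! The `Q^ε` bounds `LUpper` and `ZetaUpper`. -/

open MeasureTheory Filter Topology Set

namespace Pool.Agent.H307R2

noncomputable section

lemma sum_rpow_le {N : ℕ} (hN : 1 ≤ N) {ε σ : ℝ} (hε : 0 < ε) (hσ : 1 - ε / 4 ≤ σ) :
    ∑ n ∈ Finset.Icc 1 N, (n : ℝ) ^ (-σ) ≤ (1 + 8 / ε) * (N : ℝ) ^ (3 * ε / 8) := by
  have hN1 : (1 : ℝ) ≤ N := by exact_mod_cast hN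
  have hN0 : (0 : ℝ) < N := by linarith
  have h1 : ∀ n ∈ Finset.Icc 1 N, (n : ℝ) ^ (-σ) ≤ (N : ℝ) ^ (ε / 4) * (n : ℝ)⁻¹ := by
    intro n hn
    rw [Finset.mem_Icc] at hn
    have hn1 : (1 : ℝ) ≤ n := by exact_mod_cast hn.1
    have hn0 : (0 : ℝ) < n := by linarith
    have hnN : (n : ℝ) ≤ N := by exact_mod_cast hn.2
    have e : -σ = (1 - σ) + (-1) := by ring
    rw [e, Real.rpow_add hn0, Real.rpow_neg_one]
    have h2 : (n : ℝ) ^ (1 - σ) ≤ (N : ℝ) ^ (ε / 4) := by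
      calc (n : ℝ) ^ (1 - σ) ≤ (n : ℝ) ^ (ε / 4) := Real.rpow_le_rpow_of_exponent_le hn1 (by linarith)
        _ ≤ (N : ℝ) ^ (ε / 4) := Real.rpow_le_rpow hn0.le hnN (by positivity)
    exact mul_le_mul_of_nonneg_right h2 (by positivity)
  have h3 : ∑ n ∈ Finset.Icc 1 N, (n : ℝ)⁻¹ ≤ 1 + Real.log N := by
    have := harmonic_le_one_add_log N
    rw [harmonic_eq_sum_Icc] at this
    push_cast at this
    exact this
  have h4 : Real.log N ≤ (N : ℝ) ^ (ε / 8) / (ε / 8) := Real.log_le_rpow_div hN0.le (by positivity)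
  have h5 : (1 : ℝ) ≤ (N : ℝ) ^ (ε / 8) := Real.one_le_rpow hN1 (by positivity)
  calc ∑ n ∈ Finset.Icc 1 N, (n : ℝ) ^ (-σ) ≤ ∑ n ∈ Finset.Icc 1 N, (N : ℝ) ^ (ε / 4) * (n : ℝ)⁻¹ :=
        Finset.sum_le_sum h1
    _ = (N : ℝ) ^ (ε / 4) * ∑ n ∈ Finset.Icc 1 N, (n : ℝ)⁻¹ := by rw [Finset.mul_sum]
    _ ≤ (N : ℝ) ^ (ε / 4) * ((N : ℝ) ^ (ε / 8) + (N : ℝ) ^ (ε / 8) / (ε / 8)) := by
        refine mul_le_mul_of_nonneg_left ?_ (by positivity)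
        linarith
    _ = (1 + 8 / ε) * ((N : ℝ) ^ (ε / 4) * (N : ℝ) ^ (ε / 8)) := by
        field_simp
    _ = (1 + 8 / ε) * (N : ℝ) ^ (3 * ε / 8) := by
        rw [← Real.rpow_add hN0]
        congr 2
        ring

/-- bounds for `N = ⌈Q²⌉` -/
lemma ceil_bounds {Q : ℝ} (hQ : 1 ≤ Q) : 1 ≤ ⌈Q ^ 2⌉₊ ∧ Q ^ 2 ≤ (⌈Q ^ 2⌉₊ : ℝ) ∧
    (⌈Q ^ 2⌉₊ : ℝ) ≤ 2 * Q ^ 2 := by
  have h1 : 1 ≤ Q ^ 2 := by nlinarith
  refine ⟨?_, Nat.le_ceil _, ?_⟩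
  · exact Nat.one_le_ceil_iff.2 (by linarith)
  · have := (Nat.ceil_lt_add_one (by positivity : 0 ≤ Q ^ 2)).le
    linarith

lemma rpow_ceil_le {Q a ε : ℝ} (hQ : 1 ≤ Q) (ha : 0 ≤ a) (ha1 : a ≤ 1) (hε : 2 * a ≤ ε) :
    (⌈Q ^ 2⌉₊ : ℝ) ^ a ≤ 2 * Q ^ ε := by
  obtain ⟨h1, h2, h3⟩ := ceil_bounds hQ
  have hQ0 : 0 < Q := by linarith
  calc (⌈Q ^ 2⌉₊ : ℝ) ^ a ≤ (2 * Q ^ 2) ^ a := Real.rpow_le_rpow (by positivity) h3 ha
    _ = 2 ^ a * (Q ^ 2) ^ a := Real.mul_rpow (by norm_num) (by positivity)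
    _ = 2 ^ a * Q ^ (2 * a) := by
        rw [← Real.rpow_natCast Q 2, ← Real.rpow_mul hQ0.le]
        norm_num
    _ ≤ 2 ^ (1 : ℝ) * Q ^ ε := by
        refine mul_le_mul (Real.rpow_le_rpow_of_exponent_le (by norm_num) ha1)
          (Real.rpow_le_rpow_of_exponent_le hQ hε) (by positivity) (by positivity)
    _ = 2 * Q ^ ε := by rw [Real.rpow_one]

/-- the tail -/
lemma tail_le {Q σ : ℝ} (hQ : 1 ≤ Q) (hσ : 3 / 4 ≤ σ) :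
    Q * ((⌈Q ^ 2⌉₊ : ℝ) ^ (-σ) / σ) ≤ 4 / 3 := by
  obtain ⟨h1, h2, h3⟩ := ceil_bounds hQ
  have hQ0 : 0 < Q := by linarith
  have hσ0 : 0 < σ := by linarith
  have h4 : (⌈Q ^ 2⌉₊ : ℝ) ^ (-σ) ≤ Q ^ (-(3 / 2) : ℝ) := by
    calc (⌈Q ^ 2⌉₊ : ℝ) ^ (-σ) ≤ (Q ^ 2) ^ (-σ) :=
          Real.rpow_le_rpow_of_nonpos (by positivity) h2 (by linarith)
      _ = Q ^ (2 * (-σ)) := by
          rw [← Real.rpow_natCast Q 2, ← Real.rpow_mul hQ0.le]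
          norm_num
      _ ≤ Q ^ (-(3 / 2) : ℝ) := Real.rpow_le_rpow_of_exponent_le hQ (by linarith)
  have h5 : Q * Q ^ (-(3 / 2) : ℝ) ≤ 1 := by
    have : Q * Q ^ (-(3 / 2) : ℝ) = Q ^ (-(1 / 2) : ℝ) := by
      nth_rewrite 1 [← Real.rpow_one Q]
      rw [← Real.rpow_add hQ0]
      norm_num
    rw [this]
    exact Real.rpow_le_one_of_one_le_of_nonpos hQ (by norm_num)
  calc Q * ((⌈Q ^ 2⌉₊ : ℝ) ^ (-σ) / σ) ≤ Q * (Q ^ (-(3 / 2) : ℝ) / (3 / 4)) := by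
        gcongr
    _ = (Q * Q ^ (-(3 / 2) : ℝ)) * (4 / 3) := by ring
    _ ≤ 1 * (4 / 3) := by gcongr
    _ = 4 / 3 := one_mul _

theorem lUpper : Pool.Agent.H410R2.LUpper := by
  intro ε hε hε1
  refine ⟨2 * (1 + 8 / ε) + 4 / 3, by positivity, ?_⟩
  intro q _ χ hχ s hs1 hs2
  have hq1 : (1 : ℝ) ≤ q := by exact_mod_cast Nat.one_le_iff_ne_zero.2 (NeZero.ne q)
  set Q : ℝ := (q : ℝ) * (|s.im| + 2) with hQdef
  have hQ : 1 ≤ Q := by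
    have := abs_nonneg s.im
    rw [hQdef]
    nlinarith
  have hσ : 3 / 4 ≤ s.re := by linarith
  have hσ0 : 0 < s.re := by linarith
  obtain ⟨h1, h2, h3⟩ := ceil_bounds hQ
  set N := ⌈Q ^ 2⌉₊ with hN
  have hQε : 1 ≤ Q ^ ε := Real.one_le_rpow hQ hε.le
  rw [LFunction_eq hχ h1 hσ0]
  have hA : ‖∑ n ∈ Finset.Icc 1 N, χ (n : ZMod q) * (n : ℂ) ^ (-s)‖ ≤
      (1 + 8 / ε) * (2 * Q ^ ε) := by
    calc ‖∑ n ∈ Finset.Icc 1 N, χ (n : ZMod q) * (n : ℂ) ^ (-s)‖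
        ≤ ∑ n ∈ Finset.Icc 1 N, (n : ℝ) ^ (-s.re) := by
          refine norm_sum_le_of_le _ fun n hn => ?_
          rw [Finset.mem_Icc] at hn
          have hn0 : 0 < n := by omega
          rw [norm_mul, Complex.norm_natCast_cpow_of_pos hn0, Complex.neg_re]
          have := χ.norm_le_one (n : ZMod q)
          have h0 : (0 : ℝ) ≤ (n : ℝ) ^ (-s.re) := by positivity
          calc ‖χ (n : ZMod q)‖ * (n : ℝ) ^ (-s.re) ≤ 1 * (n : ℝ) ^ (-s.re) :=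
                mul_le_mul_of_nonneg_right this h0
            _ = _ := one_mul _
      _ ≤ (1 + 8 / ε) * (N : ℝ) ^ (3 * ε / 8) := sum_rpow_le h1 hε hs1
      _ ≤ (1 + 8 / ε) * (2 * Q ^ ε) := by
          refine mul_le_mul_of_nonneg_left ?_ (by positivity)
          exact rpow_ceil_le hQ (by positivity) (by linarith) (by linarith)
  have hB : ‖s * TM N (Ech χ N) s‖ ≤ 4 / 3 := by
    have hs3 : ‖s‖ ≤ |s.im| + 2 := by
      have := Complex.norm_le_abs_re_add_abs_im s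
      rw [abs_of_pos hσ0] at this
      linarith
    calc ‖s * TM N (Ech χ N) s‖ = ‖s‖ * ‖TM N (Ech χ N) s‖ := norm_mul _ _
      _ ≤ (|s.im| + 2) * (q * ((N : ℝ) ^ (-s.re) / s.re)) :=
          mul_le_mul hs3 (TM_norm_le h1 (Ech_norm_le hχ N) hσ0) (norm_nonneg _) (by positivity)
      _ = Q * ((N : ℝ) ^ (-s.re) / s.re) := by rw [hQdef]; ring
      _ ≤ 4 / 3 := tail_le hQ hσ
  calc ‖∑ n ∈ Finset.Icc 1 N, χ (n : ZMod q) * (n : ℂ) ^ (-s) + s * TM N (Ech χ N) s‖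
      ≤ (1 + 8 / ε) * (2 * Q ^ ε) + 4 / 3 := (norm_add_le _ _).trans (add_le_add hA hB)
    _ ≤ (1 + 8 / ε) * (2 * Q ^ ε) + 4 / 3 * Q ^ ε := by linarith
    _ = (2 * (1 + 8 / ε) + 4 / 3) * Q ^ ε := by ring

theorem zetaUpper : Pool.Agent.H410R2.ZetaUpper := by
  intro ε hε hε1
  refine ⟨2 * (1 + 8 / ε) + 4 / 3, by positivity, ?_⟩
  intro s hs1 hs2 hne
  set Q : ℝ := |s.im| + 2 with hQdef
  have hQ : 1 ≤ Q := by
    have := abs_nonneg s.im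
    rw [hQdef]
    linarith
  have hσ : 3 / 4 ≤ s.re := by linarith
  have hσ0 : 0 < s.re := by linarith
  obtain ⟨h1, h2, h3⟩ := ceil_bounds hQ
  set N := ⌈Q ^ 2⌉₊ with hN
  have hQε : 1 ≤ Q ^ ε := Real.one_le_rpow hQ hε.le
  have hN0 : 0 < N := h1
  have hsn : 0 < ‖s - 1‖ := norm_pos_iff.2 (sub_ne_zero.2 hne)
  rw [zeta_eq h1 hσ0 hne]
  have hA : ‖∑ n ∈ Finset.Icc 1 N, (n : ℂ) ^ (-s)‖ ≤ (1 + 8 / ε) * (2 * Q ^ ε) := by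
    calc ‖∑ n ∈ Finset.Icc 1 N, (n : ℂ) ^ (-s)‖
        ≤ ∑ n ∈ Finset.Icc 1 N, (n : ℝ) ^ (-s.re) := by
          refine norm_sum_le_of_le _ fun n hn => ?_
          rw [Finset.mem_Icc] at hn
          have hn0 : 0 < n := by omega
          rw [Complex.norm_natCast_cpow_of_pos hn0, Complex.neg_re]
      _ ≤ (1 + 8 / ε) * (N : ℝ) ^ (3 * ε / 8) := sum_rpow_le h1 hε hs1
      _ ≤ (1 + 8 / ε) * (2 * Q ^ ε) := by
          refine mul_le_mul_of_nonneg_left ?_ (by positivity)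
          exact rpow_ceil_le hQ (by positivity) (by linarith) (by linarith)
  have hC : ‖(N : ℂ) ^ (1 - s) / (s - 1)‖ ≤ 2 * Q ^ ε * (1 / ‖s - 1‖) := by
    rw [norm_div, Complex.norm_natCast_cpow_of_pos hN0, div_eq_mul_one_div]
    refine mul_le_mul_of_nonneg_right ?_ (by positivity)
    have e : (1 - s).re = 1 - s.re := by simp
    rw [e]
    calc (N : ℝ) ^ (1 - s.re) ≤ (N : ℝ) ^ (ε / 4) :=
          Real.rpow_le_rpow_of_exponent_le (by exact_mod_cast h1) (by linarith)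
      _ ≤ 2 * Q ^ ε := rpow_ceil_le hQ (by positivity) (by linarith) (by linarith)
  have hB : ‖s * TM N Ez s‖ ≤ 4 / 3 := by
    have hs3 : ‖s‖ ≤ |s.im| + 2 := by
      have := Complex.norm_le_abs_re_add_abs_im s
      rw [abs_of_pos hσ0] at this
      linarith
    calc ‖s * TM N Ez s‖ = ‖s‖ * ‖TM N Ez s‖ := norm_mul _ _
      _ ≤ (|s.im| + 2) * (1 * ((N : ℝ) ^ (-s.re) / s.re)) :=
          mul_le_mul hs3 (TM_norm_le h1 Ez_norm_le hσ0) (norm_nonneg _) (by positivity)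
      _ = Q * ((N : ℝ) ^ (-s.re) / s.re) := by rw [hQdef]; ring
      _ ≤ 4 / 3 := tail_le hQ hσ
  have hi : 0 ≤ 1 / ‖s - 1‖ := by positivity
  calc ‖∑ n ∈ Finset.Icc 1 N, (n : ℂ) ^ (-s) + (N : ℂ) ^ (1 - s) / (s - 1) + s * TM N Ez s‖
      ≤ (1 + 8 / ε) * (2 * Q ^ ε) + 2 * Q ^ ε * (1 / ‖s - 1‖) + 4 / 3 :=
        (norm_add_le _ _).trans (add_le_add ((norm_add_le _ _).trans (add_le_add hA hC)) hB)
    _ ≤ (2 * (1 + 8 / ε) + 4 / 3) * Q ^ ε * (1 + 1 / ‖s - 1‖) := by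
        have h8 : 0 < 8 / ε := by positivity
        have hp : 0 ≤ Q ^ ε * (1 / ‖s - 1‖) := by positivity
        nlinarith [mul_nonneg h8.le hp]

end

end Pool.Agent.H307R2
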