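import Mathlib
import Pool.Agent.H43.G.R_seed8.H307R2.Sg1

/-! Siegel's theorem, part 2: the product of four L-functions and the signs of its derivatives. -/

open Filter Topology Set
open scoped ComplexOrder

namespace Pool.Agent.H307R2

noncomputable section

lemma alt {F G : ℂ → ℂ} {x : ℂ} (hF : AnalyticAt ℂ F x) (hG : AnalyticAt ℂ G x)
    (hd : deriv F =ᶠ[𝓝 x] fun s => -(G s * F s)) (h0 : 0 ≤ F x)
    (hGp : ∀ j, 0 ≤ (-1 : ℂ) ^ j * iteratedDeriv j G x) :
    ∀ m, 0 ≤ (-1 : ℂ) ^ m * iteratedDeriv m F x := by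
  intro m
  induction m using Nat.strong_induction_on with
  | _ m ih =>
    rcases m with _ | m
    · simpa using h0
    · rw [iteratedDeriv_succ', hd.iteratedDeriv_eq m, iteratedDeriv_fun_neg,
        iteratedDeriv_fun_mul hG.contDiffAt hF.contDiffAt]
      have e : (-1 : ℂ) ^ (m + 1) * -∑ i ∈ Finset.range (m + 1),
          (m.choose i : ℂ) * iteratedDeriv i G x * iteratedDeriv (m - i) F x =
          ∑ i ∈ Finset.range (m + 1), (m.choose i : ℂ) * ((-1 : ℂ) ^ i * iteratedDeriv i G x) *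
            ((-1 : ℂ) ^ (m - i) * iteratedDeriv (m - i) F x) := by
        rw [pow_succ, mul_neg_one, neg_mul_neg, Finset.mul_sum]
        refine Finset.sum_congr rfl fun i hi => ?_
        rw [Finset.mem_range] at hi
        have : (-1 : ℂ) ^ m = (-1 : ℂ) ^ i * (-1 : ℂ) ^ (m - i) := by
          rw [← pow_add]; congr 1; omega
        rw [this]; ring
      rw [e]
      refine Finset.sum_nonneg fun i hi => ?_
      rw [Finset.mem_range] at hi
      refine mul_nonneg (mul_nonneg ?_ (hGp i)) (ih (m - i) (by omega))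
      exact_mod_cast Nat.zero_le _

variable {q1 q2 : ℕ} [NeZero q1] [NeZero q2] (χ1 : DirichletCharacter ℂ q1)
  (χ2 : DirichletCharacter ℂ q2)

/-- product of the three nontrivial L-functions -/
def HH (s : ℂ) : ℂ := χ1.LFunction s * χ2.LFunction s * (psi χ1 χ2).LFunction s

/-- product of the four L-functions -/
def FF (s : ℂ) : ℂ := riemannZeta s * HH χ1 χ2 s

/-- coefficients of `-F'/F` -/
def gc (n : ℕ) : ℂ := (ArithmeticFunction.vonMangoldt n : ℂ) *
  ((1 + χ1 (n : ZMod q1)) * (1 + χ2 (n : ZMod q2)))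

lemma gc_nonneg (h1 : χ1 ^ 2 = 1) (h2 : χ2 ^ 2 = 1) (n : ℕ) : 0 ≤ gc χ1 χ2 n := by
  unfold gc
  refine mul_nonneg ?_ (mul_nonneg ?_ ?_)
  · exact_mod_cast ArithmeticFunction.vonMangoldt_nonneg
  · rcases quad_vals h1 (n : ZMod q1) with h | h | h <;> rw [h] <;> norm_num
  · rcases quad_vals h2 (n : ZMod q2) with h | h | h <;> rw [h] <;> norm_num

lemma gc_eq : gc χ1 χ2 = (fun n => (ArithmeticFunction.vonMangoldt n : ℂ)) +
    (fun n : ℕ => χ1 (n : ZMod q1) * (ArithmeticFunction.vonMangoldt n : ℂ)) +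
    (fun n : ℕ => χ2 (n : ZMod q2) * (ArithmeticFunction.vonMangoldt n : ℂ)) +
    (fun n : ℕ => psi χ1 χ2 (n : ZMod (q1 * q2)) * (ArithmeticFunction.vonMangoldt n : ℂ)) := by
  funext n
  simp only [Pi.add_apply, gc, psi_apply]
  ring

lemma gc_summable {s : ℂ} (hs : 1 < s.re) : LSeriesSummable (gc χ1 χ2) s := by
  rw [gc_eq]
  refine ((LSeriesSummable.add ?_ ?_).add ?_).add ?_
  · exact ArithmeticFunction.LSeriesSummable_vonMangoldt hs
  · exact DirichletCharacter.LSeriesSummable_twist_vonMangoldt χ1 hs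
  · exact DirichletCharacter.LSeriesSummable_twist_vonMangoldt χ2 hs
  · exact DirichletCharacter.LSeriesSummable_twist_vonMangoldt (psi χ1 χ2) hs

lemma twist_eq {q : ℕ} [NeZero q] (χ : DirichletCharacter ℂ q) {s : ℂ} (hs : 1 < s.re) :
    LSeries (fun n : ℕ => χ (n : ZMod q) * (ArithmeticFunction.vonMangoldt n : ℂ)) s =
      - deriv χ.LFunction s / χ.LFunction s := by
  have h := DirichletCharacter.LSeries_twist_vonMangoldt_eq χ hs
  rw [← DirichletCharacter.deriv_LFunction_eq_deriv_LSeries χ hs,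
    ← DirichletCharacter.LFunction_eq_LSeries χ hs] at h
  exact h

lemma LSeries_gc {s : ℂ} (hs : 1 < s.re) : LSeries (gc χ1 χ2) s =
    - deriv riemannZeta s / riemannZeta s + - deriv χ1.LFunction s / χ1.LFunction s +
    - deriv χ2.LFunction s / χ2.LFunction s +
    - deriv (psi χ1 χ2).LFunction s / (psi χ1 χ2).LFunction s := by
  have a1 := ArithmeticFunction.LSeriesSummable_vonMangoldt hs
  have a2 : LSeriesSummable (fun n : ℕ => χ1 (n : ZMod q1) *
    (ArithmeticFunction.vonMangoldt n : ℂ)) s :=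
    DirichletCharacter.LSeriesSummable_twist_vonMangoldt χ1 hs
  have a3 : LSeriesSummable (fun n : ℕ => χ2 (n : ZMod q2) *
    (ArithmeticFunction.vonMangoldt n : ℂ)) s :=
    DirichletCharacter.LSeriesSummable_twist_vonMangoldt χ2 hs
  have a4 : LSeriesSummable (fun n : ℕ => psi χ1 χ2 (n : ZMod (q1 * q2)) *
    (ArithmeticFunction.vonMangoldt n : ℂ)) s :=
    DirichletCharacter.LSeriesSummable_twist_vonMangoldt (psi χ1 χ2) hs
  rw [gc_eq, LSeries_add ((a1.add a2).add a3) a4, LSeries_add (a1.add a2) a3, LSeries_add a1 a2]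
  rw [← twist_eq χ1 hs, ← twist_eq χ2 hs, ← twist_eq (psi χ1 χ2) hs,
    ← ArithmeticFunction.LSeries_vonMangoldt_eq_deriv_riemannZeta_div hs]

lemma ne_one_of_re {s : ℂ} (hs : 1 < s.re) : s ≠ 1 := by
  intro h
  rw [h] at hs
  simp at hs

lemma deriv_FF {s : ℂ} (hs : 1 < s.re) :
    deriv (FF χ1 χ2) s = -(LSeries (gc χ1 χ2) s * FF χ1 χ2 s) := by
  have hs1 := ne_one_of_re hs
  have z0 : riemannZeta s ≠ 0 := riemannZeta_ne_zero_of_one_lt_re hs
  have n1 : χ1.LFunction s ≠ 0 :=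
    DirichletCharacter.LFunction_ne_zero_of_one_le_re χ1 (Or.inr hs1) hs.le
  have n2 : χ2.LFunction s ≠ 0 :=
    DirichletCharacter.LFunction_ne_zero_of_one_le_re χ2 (Or.inr hs1) hs.le
  have n3 : (psi χ1 χ2).LFunction s ≠ 0 :=
    DirichletCharacter.LFunction_ne_zero_of_one_le_re _ (Or.inr hs1) hs.le
  have d0 : DifferentiableAt ℂ riemannZeta s := differentiableAt_riemannZeta hs1
  have d1 : DifferentiableAt ℂ χ1.LFunction s :=
    DirichletCharacter.differentiableAt_LFunction χ1 s (Or.inl hs1)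
  have d2 : DifferentiableAt ℂ χ2.LFunction s :=
    DirichletCharacter.differentiableAt_LFunction χ2 s (Or.inl hs1)
  have d3 : DifferentiableAt ℂ (psi χ1 χ2).LFunction s :=
    DirichletCharacter.differentiableAt_LFunction _ s (Or.inl hs1)
  have hF : FF χ1 χ2 = fun s => riemannZeta s * (χ1.LFunction s * χ2.LFunction s *
      (psi χ1 χ2).LFunction s) := rfl
  rw [LSeries_gc χ1 χ2 hs, hF]
  rw [deriv_fun_mul d0 ((d1.fun_mul d2).fun_mul d3), deriv_fun_mul (d1.fun_mul d2) d3,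
    deriv_fun_mul d1 d2]
  field_simp
  ring

lemma FF_two_nonneg (h1 : χ1 ^ 2 = 1) (h2 : χ2 ^ 2 = 1) (n1 : χ1 ≠ 1) (n2 : χ2 ≠ 1)
    (n3 : psi χ1 χ2 ≠ 1) : ((1 / 20 : ℝ) : ℂ) ≤ FF χ1 χ2 2 := by
  have r1 : χ1.LFunction 2 = (((χ1.LFunction 2).re : ℝ) : ℂ) := by
    apply Complex.ext
    · simp
    · have := LFunction_im h1 n1 (x := 2) (by norm_num)
      simpa using this
  have r2 : χ2.LFunction 2 = (((χ2.LFunction 2).re : ℝ) : ℂ) := by
    apply Complex.ext
    · simp
    · have := LFunction_im h2 n2 (x := 2) (by norm_num)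
      simpa using this
  have r3 : (psi χ1 χ2).LFunction 2 = ((((psi χ1 χ2).LFunction 2).re : ℝ) : ℂ) := by
    apply Complex.ext
    · simp
    · have := LFunction_im (psi_sq h1 h2) n3 (x := 2) (by norm_num)
      simpa using this
  have l1 := LFunction_two_re (χ := χ1)
  have l2 := LFunction_two_re (χ := χ2)
  have l3 := LFunction_two_re (χ := psi χ1 χ2)
  have hz : riemannZeta 2 = ((Real.pi ^ 2 / 6 : ℝ) : ℂ) := by
    rw [riemannZeta_two]; push_cast; rfl
  unfold FF HH
  rw [r1, r2, r3, hz]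
  set a := (χ1.LFunction 2).re
  set b := (χ2.LFunction 2).re
  set c := ((psi χ1 χ2).LFunction 2).re
  have hpi : 1.5 ≤ Real.pi ^ 2 / 6 := by
    have := Real.pi_gt_three
    nlinarith
  have hab : 1 / 9 ≤ a * b := by nlinarith
  have habc : 1 / 27 ≤ a * b * c := by nlinarith
  have : (1 / 20 : ℝ) ≤ Real.pi ^ 2 / 6 * (a * b * c) := by nlinarith
  exact_mod_cast this

/-- the derivatives of `F` at `2` alternate in sign -/
lemma FF_alt (h1 : χ1 ^ 2 = 1) (h2 : χ2 ^ 2 = 1) (n1 : χ1 ≠ 1) (n2 : χ2 ≠ 1)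
    (n3 : psi χ1 χ2 ≠ 1) (m : ℕ) : 0 ≤ (-1 : ℂ) ^ m * iteratedDeriv m (FF χ1 χ2) 2 := by
  have hU : IsOpen {z : ℂ | 1 < z.re} := isOpen_lt continuous_const Complex.continuous_re
  have h2U : (2 : ℂ) ∈ {z : ℂ | 1 < z.re} := by simp
  have habs : LSeries.abscissaOfAbsConv (gc χ1 χ2) ≤ 1 := by
    apply LSeries.abscissaOfAbsConv_le_of_forall_lt_LSeriesSummable
    intro y hy
    exact gc_summable χ1 χ2 (by simpa using hy)
  refine alt (G := LSeries (gc χ1 χ2)) ?_ ?_ ?_ ?_ ?_ m
  · have : DifferentiableOn ℂ (FF χ1 χ2) {z : ℂ | 1 < z.re} := by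
      intro s hs
      have hs' : 1 < s.re := hs
      have hs1 := ne_one_of_re hs'
      apply DifferentiableAt.differentiableWithinAt
      unfold FF HH
      exact (differentiableAt_riemannZeta hs1).fun_mul
        (((DirichletCharacter.differentiableAt_LFunction χ1 s (Or.inl hs1)).fun_mul
          (DirichletCharacter.differentiableAt_LFunction χ2 s (Or.inl hs1))).fun_mul
          (DirichletCharacter.differentiableAt_LFunction _ s (Or.inl hs1)))
    exact this.analyticAt (hU.mem_nhds h2U)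
  · have := LSeries_analyticOnNhd (gc χ1 χ2)
    apply this
    show LSeries.abscissaOfAbsConv (gc χ1 χ2) < ((2 : ℂ).re : EReal)
    refine lt_of_le_of_lt habs ?_
    simp
    norm_cast
  · filter_upwards [hU.mem_nhds h2U] with s hs
    exact deriv_FF χ1 χ2 hs
  · exact le_trans (Complex.zero_le_real.2 (by norm_num)) (FF_two_nonneg χ1 χ2 h1 h2 n1 n2 n3)
  · intro j
    have := LSeries.iteratedDeriv_alternating (a := gc χ1 χ2) (fun n => gc_nonneg χ1 χ2 h1 h2 n)
      (x := 2) (by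
        refine lt_of_le_of_lt habs ?_
        norm_cast) j
    simpa using this

end

end Pool.Agent.H307R2
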