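import Mathlib
import Pool.Agent.H43.G.R_seed8.H307R2.Sg4

/-! Siegel's theorem, part 5: Estermann's inequality. -/

open Filter Topology Set
open scoped ComplexOrder

namespace Pool.Agent.H307R2

noncomputable section

variable {q1 q2 : ℕ} [NeZero q1] [NeZero q2] {χ1 : DirichletCharacter ℂ q1}
  {χ2 : DirichletCharacter ℂ q2}

lemma HH_crude (n1 : χ1 ≠ 1) (n2 : χ2 ≠ 1) (n3 : psi χ1 χ2 ≠ 1) {s : ℂ}
    (hs : 1 / 2 ≤ s.re) (hs2 : ‖s‖ ≤ 7 / 2) :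
    ‖HH χ1 χ2 s‖ ≤ 512 * ((q1 : ℝ) * q2) ^ 2 := by
  unfold HH
  have a1 := LFunction_crude n1 hs hs2
  have a2 := LFunction_crude n2 hs hs2
  have a3 := LFunction_crude n3 hs hs2
  rw [norm_mul, norm_mul]
  calc ‖χ1.LFunction s‖ * ‖χ2.LFunction s‖ * ‖(psi χ1 χ2).LFunction s‖
      ≤ (8 * q1) * (8 * q2) * (8 * ((q1 * q2 : ℕ) : ℝ)) :=
        mul_le_mul (mul_le_mul a1 a2 (norm_nonneg _) (by positivity)) a3 (norm_nonneg _)
          (by positivity)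
    _ = 512 * ((q1 : ℝ) * q2) ^ 2 := by push_cast; ring

lemma KK_sphere (n1 : χ1 ≠ 1) (n2 : χ2 ≠ 1) (n3 : psi χ1 χ2 ≠ 1) {s : ℂ}
    (hs : s ∈ Metric.sphere (2 : ℂ) (3 / 2)) :
    ‖KK χ1 χ2 s‖ ≤ 6144 * ((q1 : ℝ) * q2) ^ 2 := by
  rw [mem_sphere_iff_norm] at hs
  have h1 : 1 / 2 ≤ s.re := by
    have := Complex.abs_re_le_norm (s - 2)
    rw [hs] at this
    have h2 := (abs_le.1 this).1
    simp at h2
    linarith
  have h2 : ‖s‖ ≤ 7 / 2 := by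
    calc ‖s‖ = ‖(s - 2) + 2‖ := by rw [sub_add_cancel]
      _ ≤ ‖s - 2‖ + ‖(2 : ℂ)‖ := norm_add_le _ _
      _ = 7 / 2 := by rw [hs]; norm_num
  have h3 : 1 / 2 ≤ ‖s - 1‖ := by
    have h4 : ‖s - 2‖ ≤ ‖s - 1‖ + ‖(1 : ℂ)‖ := by
      have e : s - 2 = (s - 1) - 1 := by ring
      rw [e]
      exact norm_sub_le _ _
    rw [hs, norm_one] at h4
    linarith
  have hne : s ≠ 1 := by
    intro h
    rw [h] at h3
    simp at h3
    linarith
  rw [KK_ne hne]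
  have a1 := zeta_crude h1 h2 h3
  have a2 := HH_crude n1 n2 n3 h1 h2
  have a3 := HH_crude n1 n2 n3 (s := 1) (by norm_num) (by norm_num)
  have a4 : ‖(1 * s - 1)⁻¹‖ ≤ 2 := by
    rw [one_mul, norm_inv, inv_le_comm₀ (by linarith) (by norm_num)]
    linarith
  calc ‖FF χ1 χ2 s - HH χ1 χ2 1 * (1 * s - 1)⁻¹‖
      ≤ ‖FF χ1 χ2 s‖ + ‖HH χ1 χ2 1 * (1 * s - 1)⁻¹‖ := norm_sub_le _ _
    _ ≤ 10 * (512 * ((q1 : ℝ) * q2) ^ 2) + (512 * ((q1 : ℝ) * q2) ^ 2) * 2 := by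
        apply add_le_add
        · unfold FF
          rw [norm_mul]
          exact mul_le_mul a1 a2 (norm_nonneg _) (by norm_num)
        · rw [norm_mul]
          exact mul_le_mul a3 a4 (norm_nonneg _) (by positivity)
    _ = 6144 * ((q1 : ℝ) * q2) ^ 2 := by ring

/-- Estermann's inequality -/
theorem key (h1 : χ1 ^ 2 = 1) (h2 : χ2 ^ 2 = 1) (n1 : χ1 ≠ 1) (n2 : χ2 ≠ 1)
    (n3 : psi χ1 χ2 ≠ 1) {β : ℝ} (hβ1 : 7 / 8 ≤ β) (hβ2 : β < 1)
    (hF : (FF χ1 χ2 (β : ℂ)).re ≤ 0) :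
    1 / 80000 * (1 - β) * ((q1 : ℝ) * q2) ^ (-(8 * (1 - β))) ≤ (HH χ1 χ2 1).re := by
  set D : ℝ := (q1 : ℝ) * q2 with hD
  have hD1 : 1 ≤ D := by
    have a1 : (1 : ℝ) ≤ q1 := by exact_mod_cast Nat.one_le_iff_ne_zero.2 (NeZero.ne q1)
    have a2 : (1 : ℝ) ≤ q2 := by exact_mod_cast Nat.one_le_iff_ne_zero.2 (NeZero.ne q2)
    rw [hD]
    nlinarith
  have hD0 : 0 < D := by linarith
  set u : ℝ := 2 - β with hu
  have hu1 : 1 < u := by rw [hu]; linarith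
  have hu2 : u ≤ 9 / 8 := by rw [hu]; linarith
  obtain ⟨M, hM0, hM1, hM2⟩ := choose_M hD1 hu1 hu2
  set κ : ℕ → ℝ := fun m => ((-1) ^ m * iteratedDeriv m (KK χ1 χ2) 2 / (m.factorial : ℂ)).re with hκ
  set b : ℕ → ℝ := fun m => ((-1) ^ m * iteratedDeriv m (FF χ1 χ2) 2 / (m.factorial : ℂ)).re with hb
  have hsq : ∀ m : ℕ, ((-1 : ℂ) ^ m) * (-1) ^ m = 1 := by
    intro m
    rw [← mul_pow]; norm_num
  have e1 : ∀ m, κ m = b m - (HH χ1 χ2 1).re := by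
    intro m
    simp only [hκ, hb]
    rw [KK_iteratedDeriv, ← Complex.sub_re]
    congr 1
    have hf : (m.factorial : ℂ) ≠ 0 := by exact_mod_cast m.factorial_ne_zero
    field_simp
    have := hsq m
    linear_combination (-(HH χ1 χ2 1) * (m.factorial : ℂ)) * this
  have e2 : ∀ m, 0 ≤ b m := by
    intro m
    simp only [hb]
    have h3 := FF_alt χ1 χ2 h1 h2 n1 n2 n3 m
    have h4 : ((-1 : ℂ) ^ m * iteratedDeriv m (FF χ1 χ2) 2 / (m.factorial : ℂ)).re =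
        ((-1 : ℂ) ^ m * iteratedDeriv m (FF χ1 χ2) 2).re / (m.factorial : ℝ) := by
      rw [← Complex.ofReal_natCast, Complex.div_ofReal_re]
    rw [h4]
    have h5 : 0 ≤ ((-1 : ℂ) ^ m * iteratedDeriv m (FF χ1 χ2) 2).re := (Complex.nonneg_iff.1 h3).1
    positivity
  have e3 : 1 / 20 ≤ b 0 := by
    have h3 := FF_two_nonneg χ1 χ2 h1 h2 n1 n2 n3
    have h4 := (Complex.le_def.1 h3).1
    simp only [hb]
    simpa using h4
  have e4 : ∀ m, |κ m| ≤ (6144 * D ^ 2) * (2 / 3) ^ m := by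
    intro m
    simp only [hκ]
    refine (Complex.abs_re_le_norm _).trans ?_
    rw [norm_div, norm_mul, norm_pow, norm_neg, norm_one, one_pow, one_mul, Complex.norm_natCast]
    have h3 := Complex.norm_iteratedDeriv_le_of_forall_mem_sphere_norm_le (c := (2 : ℂ))
      (R := 3 / 2) (C := 6144 * D ^ 2) (f := KK χ1 χ2) m (by norm_num)
      (KK_differentiable n1 n2 n3).diffContOnCl (fun z hz => KK_sphere n1 n2 n3 hz)
    have hf : (0 : ℝ) < (m.factorial : ℝ) := by exact_mod_cast m.factorial_pos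
    rw [div_le_iff₀ hf]
    calc ‖iteratedDeriv m (KK χ1 χ2) 2‖ ≤ m.factorial * (6144 * D ^ 2) / (3 / 2) ^ m := h3
      _ = (6144 * D ^ 2) * (2 / 3) ^ m * m.factorial := by
          have : (2 / 3 : ℝ) ^ m = ((3 / 2 : ℝ) ^ m)⁻¹ := by rw [← inv_pow]; norm_num
          rw [this]
          ring
  have e5 : HasSum (fun m => κ m * u ^ m) (KK χ1 χ2 (β : ℂ)).re := by
    have h3 := Complex.hasSum_taylorSeries_of_entire (KK_differentiable n1 n2 n3) 2 (β : ℂ)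
    have h4 := Complex.hasSum_re h3
    convert h4 using 2 with m
    simp only [hκ, smul_eq_mul]
    have h5 : ((β : ℂ) - 2) ^ m = (-1) ^ m * ((u ^ m : ℝ) : ℂ) := by
      have : (β : ℂ) - 2 = (-1) * ((u : ℝ) : ℂ) := by
        rw [hu]; push_cast; ring
      rw [this, mul_pow]
      push_cast
      rfl
    rw [h5]
    have h6 : (m.factorial : ℂ)⁻¹ * ((-1) ^ m * ((u ^ m : ℝ) : ℂ) *
        iteratedDeriv m (KK χ1 χ2) 2) = ((u ^ m : ℝ) : ℂ) *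
        ((-1) ^ m * iteratedDeriv m (KK χ1 χ2) 2 / (m.factorial : ℂ)) := by
      rw [div_eq_mul_inv]; ring
    rw [h6, Complex.re_ofReal_mul]
    ring
  have e6 : (KK χ1 χ2 (β : ℂ)).re ≤ (HH χ1 χ2 1).re / (u - 1) := by
    have hne : (β : ℂ) ≠ 1 := by
      intro h
      have : β = 1 := by exact_mod_cast h
      linarith
    rw [KK_ne hne]
    have h3 : (1 * (β : ℂ) - 1)⁻¹ = (((-(1 / (u - 1))) : ℝ) : ℂ) := by
      have h5 : u - 1 ≠ 0 := by linarith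
      have h6 : (β : ℂ) - 1 = -((u - 1 : ℝ) : ℂ) := by rw [hu]; push_cast; ring
      rw [one_mul, h6, inv_neg]
      push_cast
      rw [one_div]
    rw [h3, Complex.sub_re, Complex.re_mul_ofReal]
    have : (HH χ1 χ2 1).re * -(1 / (u - 1)) = - ((HH χ1 χ2 1).re / (u - 1)) := by ring
    rw [this]
    linarith
  have h3 := key_real κ b (HH χ1 χ2 1).re (6144 * D ^ 2) u _ e1 e2 e3 e4 hu1 hu2 e5 e6 M hM0 hM1
  have hu0 : 0 < u := by linarith
  have huM : 0 < u ^ M := by positivity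
  have hlam : 0 < (HH χ1 χ2 1).re := by
    by_contra hneg
    push Not at hneg
    have : (HH χ1 χ2 1).re * u ^ M ≤ 0 := mul_nonpos_of_nonpos_of_nonneg hneg huM.le
    linarith
  have h4 : 1 / 40 * (u - 1) ≤ (HH χ1 χ2 1).re * (2000 * D ^ (8 * (u - 1))) :=
    h3.trans (mul_le_mul_of_nonneg_left hM2 hlam.le)
  have h5 : 1 - β = u - 1 := by rw [hu]; ring
  rw [h5, Real.rpow_neg hD0.le]
  have hpos : 0 < D ^ (8 * (u - 1)) := Real.rpow_pos_of_pos hD0 _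
  rw [← div_eq_mul_inv, div_le_iff₀ hpos]
  linarith

end

end Pool.Agent.H307R2
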